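import Mathlib
import Pool.Agent.Q38.S2.Count

set_option autoImplicit false

/-!
# `limsup M(n) = 4` for the least number of distinct entries in solutions of `σ₂ = σₙ`

A solution with at most three distinct entries has, for large `n`, the entries `1` (`N` times),
`a` (`k` times) and `b` (`l` times). For given `k, l, a, b` there is at most one `n`, and the number
of quadruples `(k, l, a, b)` giving an `n ≤ T = R ^ 60` is `O(R ^ 58)`: for `l = 1` a divisor of a
polynomial value in `a` determines everything, for `l = 2` the pairs are integral points on flat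
hyperbolas, and for `k, l ≥ 3` one has `a b ≤ 2 T ^ (2/3)`. So almost all `n` have `M(n) ≥ 4`.
-/

namespace Pool.Agent.Results.MP_2b461e_nt.LimsupFour

open Finset Filter Pool.Agent.Q38.S2

/-- the elementary symmetric polynomial `σ_k` of the entries of the tuple `x` -/
def sigma {n : ℕ} (k : ℕ) (x : Fin n → ℕ) : ℕ :=
  ∑ t ∈ (Finset.univ : Finset (Fin n)).powersetCard k, ∏ i ∈ t, x i

/-- `S(n)`: the tuples `x₁ ≤ … ≤ xₙ` of positive integers with `σ₂ = σₙ` -/
def S (n : ℕ) : Set (Fin n → ℕ) :=
  {x | Monotone x ∧ (∀ i, 0 < x i) ∧ sigma 2 x = sigma n x}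

/-- `M(n)`: the least number of distinct entries of a tuple in `S(n)` -/
noncomputable def M (n : ℕ) : ℕ :=
  sInf ((fun x : Fin n → ℕ => ((Finset.univ : Finset (Fin n)).image x).card) '' S n)

theorem sigma_n {n : ℕ} (x : Fin n → ℕ) : sigma n x = ∏ i, x i := by
  unfold sigma
  have h : (Finset.univ : Finset (Fin n)).powersetCard n = {Finset.univ} := by
    have := Finset.powersetCard_self (Finset.univ : Finset (Fin n))
    rwa [Finset.card_univ, Fintype.card_fin] at this
  rw [h, Finset.sum_singleton]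

theorem two_sigma_aux {ι : Type*} [DecidableEq ι] (s : Finset ι) (x : ι → ℕ) :
    2 * ∑ t ∈ s.powersetCard 2, ∏ i ∈ t, x i + ∑ i ∈ s, x i ^ 2 = (∑ i ∈ s, x i) ^ 2 := by
  induction s using Finset.induction_on with
  | empty => simp
  | insert a s ha ih =>
    rw [Finset.powersetCard_succ_insert ha, Finset.sum_union, Finset.sum_insert ha,
      Finset.sum_insert ha, Finset.sum_image]
    · have h1 : ∑ t ∈ s.powersetCard 1, ∏ i ∈ insert a t, x i = x a * ∑ i ∈ s, x i := by
        rw [Finset.powersetCard_one, Finset.sum_map, Finset.mul_sum]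
        refine Finset.sum_congr rfl fun i hi => ?_
        have hai : a ∉ ({i} : Finset ι) := by
          rw [Finset.mem_singleton]
          rintro rfl
          exact ha hi
        simp only [Function.Embedding.coeFn_mk]
        rw [Finset.prod_insert hai, Finset.prod_singleton]
      rw [h1, add_pow_two, ← ih]
      ring
    · intro t ht t' ht' htt
      rw [Finset.mem_coe, Finset.mem_powersetCard] at ht ht'
      have h1 : a ∉ t := fun h => ha (ht.1 h)
      have h2 : a ∉ t' := fun h => ha (ht'.1 h)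
      rw [← Finset.erase_insert h1, ← Finset.erase_insert h2, htt]
    · rw [Finset.disjoint_left]
      intro t ht ht'
      rw [Finset.mem_image] at ht'
      obtain ⟨u, -, rfl⟩ := ht'
      rw [Finset.mem_powersetCard] at ht
      exact ha (ht.1 (Finset.mem_insert_self a u))

theorem two_sigma {n : ℕ} (x : Fin n → ℕ) :
    2 * sigma 2 x + ∑ i, x i ^ 2 = (∑ i, x i) ^ 2 := two_sigma_aux _ x

/-! ### The upper bound -/

/-- the known solution `(1, …, 1, 2, n, n (3 n - 5) / 2)`, `n = j + 3` -/
def known (j : ℕ) : Fin (j + 3) → ℕ := fun i =>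
  if i.1 < j then 1 else if i.1 = j then 2 else if i.1 = j + 1 then j + 3
    else (j + 3) * (3 * j + 4) / 2

theorem sum_known (j : ℕ) (f : ℕ → ℕ) :
    ∑ i, f (known j i) = j * f 1 + f 2 + f (j + 3) + f ((j + 3) * (3 * j + 4) / 2) := by
  rw [Fin.sum_univ_castSucc, Fin.sum_univ_castSucc, Fin.sum_univ_castSucc]
  simp [known]

theorem prod_known (j : ℕ) :
    ∏ i, known j i = 2 * (j + 3) * ((j + 3) * (3 * j + 4) / 2) := by
  rw [Fin.prod_univ_castSucc, Fin.prod_univ_castSucc, Fin.prod_univ_castSucc]
  simp [known]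

theorem known_mem (j : ℕ) : known j ∈ S (j + 3) := by
  have hm : 2 * ((j + 3) * (3 * j + 4) / 2) = (j + 3) * (3 * j + 4) := by
    apply Nat.two_mul_div_two_of_even
    rcases Nat.even_or_odd j with ⟨c, hc⟩ | ⟨c, hc⟩
    · exact Even.mul_left ⟨3 * c + 2, by omega⟩ _
    · exact Even.mul_right ⟨c + 2, by omega⟩ _
  have hle : j + 3 ≤ (j + 3) * (3 * j + 4) / 2 := by
    rw [Nat.le_div_iff_mul_le (by norm_num)]
    exact Nat.mul_le_mul_left _ (by omega)
  refine ⟨?_, ?_, ?_⟩
  · intro i k hik
    have hik' : i.1 ≤ k.1 := hik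
    have hk := k.2
    unfold known
    split_ifs <;> omega
  · intro i
    unfold known
    split_ifs <;> omega
  · rw [sigma_n, prod_known]
    have h := two_sigma (known j)
    rw [sum_known j (fun t => t ^ 2), sum_known j (fun t => t)] at h
    generalize (j + 3) * (3 * j + 4) / 2 = m at *
    nlinarith

theorem card_known (j : ℕ) : ((Finset.univ : Finset (Fin (j + 3))).image (known j)).card ≤ 4 := by
  have h : (Finset.univ : Finset (Fin (j + 3))).image (known j) ⊆
      {1, 2, j + 3, (j + 3) * (3 * j + 4) / 2} := by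
    intro a ha
    rw [Finset.mem_image] at ha
    obtain ⟨i, -, rfl⟩ := ha
    unfold known
    split_ifs <;> simp
  exact (Finset.card_le_card h).trans Finset.card_le_four

theorem S_nonempty {n : ℕ} (hn : 3 ≤ n) : ∃ x ∈ S n,
    ((Finset.univ : Finset (Fin n)).image x).card ≤ 4 := by
  obtain ⟨j, rfl⟩ : ∃ j, n = j + 3 := ⟨n - 3, by omega⟩
  exact ⟨known j, known_mem j, card_known j⟩

theorem M_le {n : ℕ} (hn : 3 ≤ n) : M n ≤ 4 := by
  obtain ⟨x, hx, hc⟩ := S_nonempty hn
  exact (Nat.sInf_le (Set.mem_image_of_mem _ hx)).trans hc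

/-! ### Few entries different from one -/

theorem few_nonones {n : ℕ} {x : Fin n → ℕ} (hx : x ∈ S n) :
    2 ^ ((Finset.univ.filter (fun i => 2 ≤ x i)).card - 2) ≤ n ^ 2 := by
  obtain ⟨-, hpos, heq⟩ := hx
  have hP : 0 < ∏ i, x i := Finset.prod_pos fun i _ => hpos i
  set W := Finset.univ.filter (fun i => 2 ≤ x i) with hW
  have h1 : ∀ t ∈ (Finset.univ : Finset (Fin n)).powersetCard 2,
      2 ^ (W.card - 2) * ∏ i ∈ t, x i ≤ ∏ i, x i := by
    intro t ht
    rw [Finset.mem_powersetCard] at ht
    rw [← Finset.prod_sdiff (Finset.subset_univ t)]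
    apply Nat.mul_le_mul_right
    have h2 : 2 ^ (W \ t).card ≤ ∏ i ∈ W \ t, x i := by
      rw [← Finset.prod_const]
      refine Finset.prod_le_prod' fun i hi => ?_
      rw [Finset.mem_sdiff, hW, Finset.mem_filter] at hi
      exact hi.1.2
    have h3 : ∏ i ∈ W \ t, x i ≤ ∏ i ∈ Finset.univ \ t, x i := by
      apply Finset.prod_le_prod_of_subset_of_one_le'
      · exact Finset.sdiff_subset_sdiff (Finset.subset_univ _) (le_refl _)
      · intro i _ _
        exact hpos i
    have h4 : W.card - 2 ≤ (W \ t).card := by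
      have := Finset.le_card_sdiff t W
      rw [ht.2] at this
      exact this
    exact (Nat.pow_le_pow_right (by norm_num) h4).trans (h2.trans h3)
  have h5 : 2 ^ (W.card - 2) * sigma 2 x ≤ n ^ 2 * ∏ i, x i := by
    unfold sigma
    rw [Finset.mul_sum]
    refine (Finset.sum_le_card_nsmul _ _ _ h1).trans ?_
    rw [Finset.card_powersetCard, Finset.card_univ, Fintype.card_fin, smul_eq_mul]
    apply Nat.mul_le_mul_right
    exact Nat.choose_le_pow n 2
  rw [heq, sigma_n] at h5
  exact Nat.le_of_mul_le_mul_right h5 hP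

/-- a set of at most two integers `≥ 2` is contained in a set `{a, b}` of two integers `≥ 2` -/
theorem exists_pair (V : Finset ℕ) (hV : V.card ≤ 2) (h2 : ∀ v ∈ V, 2 ≤ v) :
    ∃ a b : ℕ, 2 ≤ a ∧ 2 ≤ b ∧ a ≠ b ∧ ∀ v ∈ V, v = a ∨ v = b := by
  rcases Nat.lt_or_ge V.card 1 with h0 | h0
  · have hV0 : V = ∅ := Finset.card_eq_zero.mp (by omega)
    subst hV0
    exact ⟨2, 3, le_rfl, by norm_num, by norm_num, by simp⟩
  rcases Nat.lt_or_ge V.card 2 with h1 | h1
  · obtain ⟨a, rfl⟩ := Finset.card_eq_one.mp (show V.card = 1 by omega)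
    refine ⟨a, a + 1, h2 a (by simp), by have := h2 a (by simp); omega, by omega, ?_⟩
    intro v hv
    rw [Finset.mem_singleton] at hv
    exact Or.inl hv
  · obtain ⟨a, b, hab, rfl⟩ := Finset.card_eq_two.mp (show V.card = 2 by omega)
    refine ⟨a, b, h2 a (by simp), h2 b (by simp), hab, ?_⟩
    intro v hv
    simpa using hv

theorem small_false {N k l a b : ℕ} (hN : 3 ≤ N) (ha : 2 ≤ a) (hb : 2 ≤ b) (hkl : k + l ≤ 2)
    (h : Eq2 N k l a b) : False := by
  unfold Eq2 at h
  have hk2 : k ≤ 2 := by omega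
  have hl2 : l ≤ 2 := by omega
  interval_cases k <;> interval_cases l <;> simp at h hkl <;> nlinarith

theorem exists_eq {n R C : ℕ} (hL : Large R C) (hn : R ^ 59 < n) (hnR : n ≤ R ^ 60)
    {x : Fin n → ℕ} (hx : x ∈ S n)
    (hc : ((Finset.univ : Finset (Fin n)).image x).card ≤ 3) : n ∈ allBad R := by
  have hR := hL.hR
  have hfew := few_nonones hx
  obtain ⟨-, hpos, heq⟩ := hx
  set W := Finset.univ.filter (fun i => 2 ≤ x i) with hW
  have hRn : R < n := lt_of_le_of_lt (Nat.le_self_pow (by norm_num) R) hn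
  -- at most `R` entries are different from `1`
  have hWR : W.card ≤ R := by
    by_contra hcon
    push Not at hcon
    have h1 : 2 ^ (R - 1) ≤ 2 ^ (W.card - 2) := Nat.pow_le_pow_right (by norm_num) (by omega)
    have h2 : n ^ 2 ≤ (R ^ 60) ^ 2 := Nat.pow_le_pow_left hnR 2
    have h3 : 2 ^ R = 2 * 2 ^ (R - 1) := by
      rw [← pow_succ']
      congr 1
      omega
    have h4 : (R ^ 60) ^ 2 = R ^ 120 := by ring
    have h5 : 2 * R ^ 120 ≤ R ^ 200 := by
      calc 2 * R ^ 120 ≤ R * R ^ 120 := Nat.mul_le_mul_right _ (by omega)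
        _ = R ^ 121 := by ring
        _ ≤ R ^ 200 := up hR (by norm_num)
    have := hL.hpow
    omega
  -- some entry is `1`
  have hone : ∃ i, x i = 1 := by
    by_contra hcon
    push Not at hcon
    have h1 : W = Finset.univ := by
      rw [hW, Finset.filter_eq_self]
      intro i _
      have h2 := hpos i
      have h3 := hcon i
      omega
    rw [h1, Finset.card_univ, Fintype.card_fin] at hWR
    omega
  obtain ⟨i₀, hi₀⟩ := hone
  set V := ((Finset.univ : Finset (Fin n)).image x).erase 1 with hV
  have hVc : V.card ≤ 2 := by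
    have h1 : 1 ∈ (Finset.univ : Finset (Fin n)).image x := by
      rw [Finset.mem_image]
      exact ⟨i₀, Finset.mem_univ _, hi₀⟩
    rw [hV, Finset.card_erase_of_mem h1]
    omega
  have hV2 : ∀ v ∈ V, 2 ≤ v := by
    intro v hv
    rw [hV, Finset.mem_erase, Finset.mem_image] at hv
    obtain ⟨h1, i, -, rfl⟩ := hv
    have := hpos i
    omega
  obtain ⟨a, b, ha, hb, hab, hVab⟩ := exists_pair V hVc hV2
  have hval : ∀ i, x i = 1 ∨ x i = a ∨ x i = b := by
    intro i
    by_cases h : x i = 1
    · exact Or.inl h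
    · right
      apply hVab
      rw [hV, Finset.mem_erase]
      exact ⟨h, Finset.mem_image_of_mem _ (Finset.mem_univ _)⟩
  set N := (Finset.univ.filter (fun i => x i = 1)).card with hN
  set k := (Finset.univ.filter (fun i => x i = a)).card with hk
  set l := (Finset.univ.filter (fun i => x i = b)).card with hl
  have hsum : ∀ f : ℕ → ℕ, ∑ i, f (x i) = N * f 1 + k * f a + l * f b := by
    intro f
    have h1 : ∀ i, f (x i) = (if x i = 1 then f 1 else 0) + (if x i = a then f a else 0) +
        (if x i = b then f b else 0) := by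
      intro i
      rcases hval i with h | h | h
      · rw [h, if_pos rfl, if_neg (by omega), if_neg (by omega)]
        ring
      · rw [h, if_neg (by omega), if_pos rfl, if_neg hab]
        ring
      · rw [h, if_neg (by omega), if_neg (Ne.symm hab), if_pos rfl]
        ring
    rw [Finset.sum_congr rfl fun i _ => h1 i, Finset.sum_add_distrib, Finset.sum_add_distrib,
      Finset.sum_ite, Finset.sum_ite, Finset.sum_ite]
    simp [hN, hk, hl]
  have hprod : ∏ i, x i = a ^ k * b ^ l := by
    have h1 : ∀ i, x i = (if x i = a then a else 1) * (if x i = b then b else 1) := by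
      intro i
      rcases hval i with h | h | h
      · rw [h, if_neg (by omega), if_neg (by omega)]
      · rw [h, if_pos rfl, if_neg hab]
        ring
      · rw [h, if_neg (Ne.symm hab), if_pos rfl]
        ring
    rw [Finset.prod_congr rfl fun i _ => h1 i, Finset.prod_mul_distrib,
      Finset.prod_ite, Finset.prod_ite]
    simp [hk, hl]
  have hcount : N + k + l = n := by
    have := hsum (fun _ => 1)
    simp at this
    omega
  have hkl : k + l ≤ R := by
    have h1 : k + l ≤ W.card := by
      rw [hk, hl, ← Finset.card_union_of_disjoint]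
      · apply Finset.card_le_card
        intro i hi
        rw [Finset.mem_union, Finset.mem_filter, Finset.mem_filter] at hi
        rw [hW, Finset.mem_filter]
        refine ⟨Finset.mem_univ _, ?_⟩
        rcases hi with h | h <;> rw [h.2] <;> assumption
      · rw [Finset.disjoint_left]
        intro i hi hi'
        rw [Finset.mem_filter] at hi hi'
        exact hab (hi.2.symm.trans hi'.2)
    omega
  have hN1 : 1 ≤ N := by omega
  have hEq : Eq2 N k l a b := by
    unfold Eq2
    have h := two_sigma x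
    rw [heq, sigma_n, hprod, hsum (fun t => t), hsum (fun t => t ^ 2)] at h
    simp only [mul_one, one_pow] at h
    omega
  have hkl3 : 3 ≤ k + l := by
    by_contra hcon
    push Not at hcon
    exact small_false (by omega) ha hb (by omega) hEq
  exact mem_bad.mpr ⟨hnR, k, l, a, b, hkl3, by omega, by omega, ha, hb, N, hN1, hcount, hEq⟩

/-! ### The main theorem -/

theorem M_eq_four (K : ℕ) : ∃ n, K ≤ n ∧ M n = 4 := by
  obtain ⟨C, hC1, hC⟩ := Pool.Agent.Helper924.MW.Lower.exists_divisor_bound 240 (by norm_num)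
  -- a large `R`
  have hev : ∀ᶠ R : ℕ in atTop, R ^ 200 < 2 ^ R := by
    have h := (isLittleO_pow_const_const_pow_of_one_lt (R := ℝ) 200
      (show (1 : ℝ) < 2 by norm_num)).def (show (0 : ℝ) < 1 / 2 by norm_num)
    filter_upwards [h] with R hR
    rw [Real.norm_of_nonneg (by positivity), Real.norm_of_nonneg (by positivity)] at hR
    have h1 : ((R : ℝ)) ^ 200 < 2 ^ R := by
      have : (0 : ℝ) < 2 ^ R := by positivity
      linarith
    exact_mod_cast h1
  obtain ⟨R₀, hR₀⟩ := eventually_atTop.mp hev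
  obtain ⟨R, hR⟩ : ∃ R, R = R₀ + K + 1000 * C + 100 := ⟨_, rfl⟩
  have hL : Large R C := ⟨by omega, hC1, by omega, hR₀ R (by omega), hC⟩
  have hR100 := hL.hR
  have hcard := allBad_card hL
  -- some `n` is not bad
  obtain ⟨n, hn, hnb⟩ : ∃ n ∈ Finset.Ioc (R ^ 59) (R ^ 60), n ∉ allBad R := by
    by_contra hcon
    push Not at hcon
    have h1 := Finset.card_le_card hcon
    rw [Nat.card_Ioc] at h1
    have h2 : R ^ 60 = R * R ^ 59 := by ring
    have h3 : R ^ 59 = R * R ^ 58 := by ring
    have h4 : 100 * R ^ 59 ≤ R * R ^ 59 := Nat.mul_le_mul_right _ hR100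
    have h5 : 100 * R ^ 58 ≤ R * R ^ 58 := Nat.mul_le_mul_right _ hR100
    have h6 : 0 < R ^ 58 := by positivity
    omega
  rw [Finset.mem_Ioc] at hn
  have hRn : R ≤ R ^ 59 := Nat.le_self_pow (by norm_num) R
  refine ⟨n, by omega, le_antisymm (M_le (by omega)) ?_⟩
  obtain ⟨x₀, hx₀, -⟩ := S_nonempty (show 3 ≤ n by omega)
  refine le_csInf ⟨_, x₀, hx₀, rfl⟩ ?_
  rintro c ⟨x, hx, rfl⟩
  by_contra hcon
  push Not at hcon
  exact hnb (exists_eq hL hn.1 hn.2 hx (by omega))

/-- **`limsup M(n) = 4`**, and `M(n) = 4` for infinitely many `n`. -/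
theorem result : limsup (fun n : ℕ => (M n : ℕ∞)) atTop = 4 ∧ {n : ℕ | M n = 4}.Infinite := by
  constructor
  · apply le_antisymm
    · refine limsup_le_of_le (by isBoundedDefault) ?_
      filter_upwards [eventually_ge_atTop 3] with n hn
      exact_mod_cast M_le hn
    · refine le_limsup_of_frequently_le ?_ (by isBoundedDefault)
      rw [frequently_atTop]
      intro K
      obtain ⟨n, hn, hM⟩ := M_eq_four K
      exact ⟨n, hn, by rw [hM]; norm_num⟩
  · refine Set.infinite_of_forall_exists_gt fun K => ?_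
    obtain ⟨n, hn, hM⟩ := M_eq_four (K + 1)
    exact ⟨n, hM, by omega⟩

end Pool.Agent.Results.MP_2b461e_nt.LimsupFour
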